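import Mathlib

set_option autoImplicit false

namespace Pool.Agent.Results.MP_7b4a8e_an.PeriodThree

/-- `x` (used at the integers `n ≥ -k` only) is a positive solution of
`x (n + 1) = A / x n ^ 2 + 1 / x (n - k) ^ p`, `n = 0, 1, 2, …`; here `^ p` is the real power. -/
def IsSolution (A p : ℝ) (k : ℕ) (x : ℤ → ℝ) : Prop :=
  (∀ n : ℤ, -(k : ℤ) ≤ n → 0 < x n) ∧
    ∀ n : ℤ, 0 ≤ n → x (n + 1) = A / (x n) ^ 2 + 1 / (x (n - k)) ^ p

/-- `N` is the prime period of `(x n)` for `n ≥ -k`: the least `M ≥ 1` such that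
`x (n + M) = x n` for all `n ≥ -k`. -/
def IsPrimePeriod (k : ℕ) (x : ℤ → ℝ) (N : ℕ) : Prop :=
  IsLeast {M : ℕ | 1 ≤ M ∧ ∀ n : ℤ, -(k : ℤ) ≤ n → x (n + M) = x n} N

/-- The polynomial `t⁶ - t³ - t² - t - 1` has a root in `(1, 2)`. -/
theorem exists_root : ∃ t : ℝ, 1 < t ∧ t ^ 6 = t ^ 3 + t ^ 2 + t + 1 := by
  have hc : ContinuousOn (fun t : ℝ => t ^ 6 - t ^ 3 - t ^ 2 - t - 1) (Set.Icc 1 2) := by
    fun_prop
  have h := intermediate_value_Icc (by norm_num : (1 : ℝ) ≤ 2) hc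
  have h0 : (0 : ℝ) ∈ Set.Icc ((fun t : ℝ => t ^ 6 - t ^ 3 - t ^ 2 - t - 1) 1)
      ((fun t : ℝ => t ^ 6 - t ^ 3 - t ^ 2 - t - 1) 2) := by
    constructor <;> norm_num
  obtain ⟨t, ht, hft⟩ := h h0
  simp only at hft
  refine ⟨t, ?_, by linarith⟩
  rcases lt_or_eq_of_le ht.1 with h | h
  · exact h
  · exfalso
    rw [← h] at hft
    norm_num at hft

/-- The `3`-periodic sequence `… , 1, t², t, 1, t², t, …` with `x (-1) = 1`, `x 0 = t ^ 2`,
`x 1 = t`. -/
noncomputable def cyc (t : ℝ) (n : ℤ) : ℝ :=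
  if n % 3 = 0 then t ^ 2 else if n % 3 = 1 then t else 1

/-- Answer to Q1: there are `A, p > 0`, `k ≥ 0` and a positive solution of
`x (n + 1) = A / x n ^ 2 + 1 / x (n - k) ^ p` which is periodic with prime period greater than
two. -/
theorem result : ∃ (A p : ℝ) (k : ℕ) (x : ℤ → ℝ) (N : ℕ),
    0 < A ∧ 0 < p ∧ IsSolution A p k x ∧ IsPrimePeriod k x N ∧ 2 < N := by
  obtain ⟨t, ht1, ht⟩ := exists_root
  have ht0 : 0 < t := by linarith
  have ht7 : t ^ 7 - t ^ 6 - t ^ 4 + 1 = 0 := by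
    have : t ^ 7 - t ^ 6 - t ^ 4 + 1 = (t - 1) * (t ^ 6 - (t ^ 3 + t ^ 2 + t + 1)) := by ring
    rw [this, ht]
    ring
  refine ⟨t ^ 4 * (t - 1), 2, 1, cyc t, 3, ?_, by norm_num, ⟨?_, ?_⟩, ⟨⟨by norm_num, ?_⟩, ?_⟩,
    by norm_num⟩
  · have : 0 < t - 1 := by linarith
    positivity
  · intro n _
    unfold cyc
    split_ifs <;> positivity
  · intro n _
    have hcast : ∀ y : ℝ, y ^ (2 : ℝ) = y ^ 2 := fun y => by
      rw [show (2 : ℝ) = ((2 : ℕ) : ℝ) by norm_num, Real.rpow_natCast]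
    rw [hcast]
    have hn : n % 3 = 0 ∨ n % 3 = 1 ∨ n % 3 = 2 := by omega
    rcases hn with h | h | h
    · have h1 : (n + 1) % 3 = 1 := by omega
      have h2 : (n - ((1 : ℕ) : ℤ)) % 3 = 2 := by omega
      have e0 : cyc t n = t ^ 2 := by simp [cyc, h]
      have e1 : cyc t (n + 1) = t := by simp [cyc, h1]
      have e2 : cyc t (n - ((1 : ℕ) : ℤ)) = 1 := by
        unfold cyc
        rw [h2]
        norm_num
      rw [e0, e1, e2]
      field_simp
      ring
    · have h1 : (n + 1) % 3 = 2 := by omega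
      have h2 : (n - ((1 : ℕ) : ℤ)) % 3 = 0 := by omega
      have e0 : cyc t n = t := by simp [cyc, h]
      have e1 : cyc t (n + 1) = 1 := by
        unfold cyc
        rw [h1]
        norm_num
      have e2 : cyc t (n - ((1 : ℕ) : ℤ)) = t ^ 2 := by
        unfold cyc
        rw [h2]
        norm_num
      rw [e0, e1, e2]
      field_simp
      nlinarith [ht7]
    · have h1 : (n + 1) % 3 = 0 := by omega
      have h2 : (n - ((1 : ℕ) : ℤ)) % 3 = 1 := by omega
      have e0 : cyc t n = 1 := by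
        unfold cyc
        rw [h]
        norm_num
      have e1 : cyc t (n + 1) = t ^ 2 := by simp [cyc, h1]
      have e2 : cyc t (n - ((1 : ℕ) : ℤ)) = t := by
        unfold cyc
        rw [h2]
        norm_num
      rw [e0, e1, e2]
      field_simp
      nlinarith [ht7]
  · intro n _
    unfold cyc
    have : (n + ((3 : ℕ) : ℤ)) % 3 = n % 3 := by omega
    rw [this]
  · rintro M ⟨hM1, hM⟩
    by_contra hlt
    rw [not_le] at hlt
    have hc : M = 1 ∨ M = 2 := by omega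
    have hn1 : cyc t (-1) = 1 := by
      unfold cyc
      norm_num
    have h0 : cyc t 0 = t ^ 2 := by
      unfold cyc
      norm_num
    have h1 : cyc t 1 = t := by
      unfold cyc
      norm_num
    have key := hM (-1) (by norm_num)
    rcases hc with rfl | rfl
    · have e : (-1 : ℤ) + ((1 : ℕ) : ℤ) = 0 := by norm_num
      rw [e, h0, hn1] at key
      nlinarith
    · have e : (-1 : ℤ) + ((2 : ℕ) : ℤ) = 1 := by norm_num
      rw [e, h1, hn1] at key
      linarith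

end Pool.Agent.Results.MP_7b4a8e_an.PeriodThree
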